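import Pool.Agent.Work.MP_193ce1_co.Five

namespace Pool.Agent.Results.MP_193ce1_co.FiveNotForced

/-- Property `P_i`: any two distinct vertices are the ends of a path with exactly `i` vertices. -/
def HasP {n : ℕ} (G : SimpleGraph (Fin n)) (i : ℕ) : Prop :=
  ∀ u v : Fin n, u ≠ v → ∃ p : G.Walk u v, p.IsPath ∧ p.support.length = i

/-- The closure of `S` for graphs of order `n`. -/
def closure (n : ℕ) (S : Set ℕ) : Set ℕ :=
  {j | 2 ≤ j ∧ j ≤ n ∧ ∀ G : SimpleGraph (Fin n), (∀ i ∈ S, HasP G i) → HasP G j}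

theorem result (n : ℕ) (hn : 11 ≤ n) (S : Set ℕ) (hS : S ⊆ Set.Icc 3 n)
    (h5 : 5 ∈ closure n S) : 5 ∈ S := by
  by_contra hc
  refine Pool.Agent.Work.MP_193ce1_co.G5_not hn
    (h5.2.2 (Pool.Agent.Work.MP_193ce1_co.G5 n) fun i hi => ?_)
  exact Pool.Agent.Work.MP_193ce1_co.G5_has hn i (hS hi).1 (fun h => hc (h ▸ hi)) (hS hi).2

end Pool.Agent.Results.MP_193ce1_co.FiveNotForced
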