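import Pool.Agent.Work.MP_193ce1_co.Rim.Sep

namespace Pool.Agent.Results.MP_193ce1_co.FromFive

/-- Property `P_i`: any two distinct vertices are the ends of a path with exactly `i` vertices. -/
def HasP {n : ℕ} (G : SimpleGraph (Fin n)) (i : ℕ) : Prop :=
  ∀ u v : Fin n, u ≠ v → ∃ p : G.Walk u v, p.IsPath ∧ p.support.length = i

/-- The closure of `S` for graphs of order `n`. -/
def closure (n : ℕ) (S : Set ℕ) : Set ℕ :=
  {j | 2 ≤ j ∧ j ≤ n ∧ ∀ G : SimpleGraph (Fin n), (∀ i ∈ S, HasP G i) → HasP G j}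

open Pool.Agent.Work.MP_193ce1_co.Rim in
theorem result (n : ℕ) (hn : 15 ≤ n) (S : Set ℕ) (hS : S ⊆ Set.Icc 5 n) :
    closure n S ⊆ S ∪ {j | n ∈ S ∧ n + 1 < 2 * j ∧ 4 * j < 3 * n + 10} := by
  intro j hj
  by_cases hjS : j ∈ S
  · exact Or.inl hjS
  obtain ⟨h2, hjn, hG⟩ := hj
  have key : ∀ u, (∀ i ∈ S, i ≤ u) → ¬ Sep n 5 u j := by
    rintro u hu ⟨G, h1, h3⟩
    exact h3 (hG G fun i hi => h1 i (hS hi).1 (hu i hi) fun e => hjS (e ▸ hi))
  have hn' : n ∈ S := by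
    by_contra hc
    refine key (n - 1) (fun i hi => ?_) (sep_mid (by omega) h2 hjn)
    have h1 := (hS hi).2
    have h3 : i ≠ n := fun e => hc (e ▸ hi)
    omega
  have hne : j ≠ n := fun e => hjS (e ▸ hn')
  have key' := key n fun i hi => (hS hi).2
  refine Or.inr ⟨hn', ?_, ?_⟩
  · by_contra hc
    by_cases h1 : 2 * j ≤ n
    · exact key' ((sepFq ⟨h1, h2, by omega⟩).mono (by omega) le_rfl)
    · exact key' (sepFp ⟨by omega, by omega⟩)
  · by_contra hc
    exact key' (sepKk ⟨by omega, by omega, hn⟩)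

end Pool.Agent.Results.MP_193ce1_co.FromFive
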