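import Pool.Agent.Work.MP_193ce1_co.Rim.Sep

namespace Pool.Agent.Results.MP_193ce1_co.FromFour

/-- Property `P_i`: any two distinct vertices are the ends of a path with exactly `i` vertices. -/
def HasP {n : ℕ} (G : SimpleGraph (Fin n)) (i : ℕ) : Prop :=
  ∀ u v : Fin n, u ≠ v → ∃ p : G.Walk u v, p.IsPath ∧ p.support.length = i

/-- The closure of `S` for graphs of order `n`. -/
def closure (n : ℕ) (S : Set ℕ) : Set ℕ :=
  {j | 2 ≤ j ∧ j ≤ n ∧ ∀ G : SimpleGraph (Fin n), (∀ i ∈ S, HasP G i) → HasP G j}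

open Pool.Agent.Work.MP_193ce1_co.Rim in
theorem result (n : ℕ) (hn : 11 ≤ n) (S : Set ℕ) (hS : S ⊆ Set.Icc 4 n) :
    closure n S ⊆ S ∪ {j | n < 2 * j ∧ (n ∈ S ∨ 3 * j < 2 * n + 7)} := by
  intro j hj
  by_cases hjS : j ∈ S
  · exact Or.inl hjS
  obtain ⟨h2, hjn, hG⟩ := hj
  have key : ∀ u, (∀ i ∈ S, i ≤ u) → ¬ Sep n 4 u j := by
    rintro u hu ⟨G, h1, h3⟩
    exact h3 (hG G fun i hi => h1 i (hS hi).1 (hu i hi) fun e => hjS (e ▸ hi))
  refine Or.inr ⟨?_, ?_⟩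
  · by_contra hc
    exact key n (fun i hi => (hS hi).2) (sepFq ⟨by omega, h2, by omega⟩)
  · by_contra hc
    rw [not_or] at hc
    refine key (n - 1) (fun i hi => ?_) (sepDd ⟨by omega, hjn, hn⟩)
    have h1 := (hS hi).2
    have h3 : i ≠ n := fun e => hc.1 (e ▸ hi)
    omega

end Pool.Agent.Results.MP_193ce1_co.FromFour
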