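import Pool.Agent.Work.MP_193ce1_co.Lin.Main

namespace Pool.Agent.Results.MP_193ce1_co.LinearSlack

/-- Property `P_i`: any two distinct vertices are the ends of a path with exactly `i` vertices. -/
def HasP {n : ℕ} (G : SimpleGraph (Fin n)) (i : ℕ) : Prop :=
  ∀ u v : Fin n, u ≠ v → ∃ p : G.Walk u v, p.IsPath ∧ p.support.length = i

/-- The closure of `S` for graphs of order `n`. -/
def closure (n : ℕ) (S : Set ℕ) : Set ℕ :=
  {j | 2 ≤ j ∧ j ≤ n ∧ ∀ G : SimpleGraph (Fin n), (∀ i ∈ S, HasP G i) → HasP G j}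

theorem result (n : ℕ) (S : Set ℕ) (hS : S ⊆ Set.Icc 2 n) (h3 : 3 ∈ S) (i : ℕ) (hi : i ∈ S)
    (j : ℕ) (h6 : 6 ≤ j) (hji : j ≤ i) (h : j ≤ 12 ∨ 50 * j ^ 2 ≤ i ∨ 10 ^ 31 * j ≤ i) :
    j ∈ closure n S := by
  refine ⟨by omega, le_trans hji (hS hi).2, fun G hG => ?_⟩
  exact Pool.Agent.Work.MP_193ce1_co.Lin.mainL (hG 3 h3) (hG i hi) h6 hji h

end Pool.Agent.Results.MP_193ce1_co.LinearSlack
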